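import Pool.Agent.Mnh583.Defs

/-! Minimum degree three. -/

set_option autoImplicit false

namespace Pool.Agent.H91M5

open Pool.Mnh583

theorem interior {α : Type} {l : List α} {a b v : α} (ha : l.head? = some a)
    (hb : l.getLast? = some b) (hv : v ∈ l) (hva : v ≠ a) (hvb : v ≠ b) :
    ∃ (A : List α) (p s : α) (B : List α), l = A ++ p :: v :: s :: B := by
  obtain ⟨A, B, rfl⟩ := List.append_of_mem hv
  rcases List.eq_nil_or_concat A with rfl | ⟨A', p, rfl⟩
  · simp at ha
    exact absurd ha hva
  · rcases B with _ | ⟨s, B'⟩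
    · simp at hb
      exact absurd hb hvb
    · exact ⟨A', p, s, B', by simp⟩

theorem adj_of {α : Type} {G : SimpleGraph α} {A B : List α} {p v s : α}
    (h : (A ++ p :: v :: s :: B).IsChain G.Adj) : G.Adj p v ∧ G.Adj v s := by
  have h1 := (List.isChain_append.1 h).2.1
  rw [List.isChain_cons_cons, List.isChain_cons_cons] at h1
  exact ⟨h1.1, h1.2.1⟩

/-- PACKAGE P3. -/
theorem deg_three {n : ℕ} (hn : 5 ≤ n) {G : SimpleGraph (Fin n)}
    (tri : ∀ u v w, G.Adj u v → G.Adj v w → ¬ G.Adj u w)
    (pairs : ∀ u v, u ≠ v → ¬ G.Adj u v → HP G (fun _ => True) u v) (v : Fin n) :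
    ∃ a b c, G.Adj v a ∧ G.Adj v b ∧ G.Adj v c ∧ a ≠ b ∧ a ≠ c ∧ b ≠ c := by
  classical
  -- two nonadjacent vertices different from `v`
  have hex : ∃ a b, a ≠ v ∧ b ≠ v ∧ a ≠ b ∧ ¬ G.Adj a b := by
    have hcard : 3 ≤ ((Finset.univ : Finset (Fin n)).erase v).card := by
      rw [Finset.card_erase_of_mem (Finset.mem_univ v), Finset.card_univ, Fintype.card_fin]
      omega
    obtain ⟨t, ht, ht3⟩ := Finset.exists_subset_card_eq hcard
    obtain ⟨x, y, z, hxy, hxz, hyz, rfl⟩ := Finset.card_eq_three.1 ht3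
    have hx : x ≠ v := (Finset.mem_erase.1 (ht (by simp))).1
    have hy : y ≠ v := (Finset.mem_erase.1 (ht (by simp))).1
    have hz : z ≠ v := (Finset.mem_erase.1 (ht (by simp))).1
    by_cases h1 : G.Adj x y
    · by_cases h2 : G.Adj y z
      · exact ⟨x, z, hx, hz, hxz, tri x y z h1 h2⟩
      · exact ⟨y, z, hy, hz, hyz, h2⟩
    · exact ⟨x, y, hx, hy, hxy, h1⟩
  obtain ⟨a, b, hav, hbv, hab, hnab⟩ := hex
  obtain ⟨l, hnd, hch, hhd, hlt, hmem⟩ := pairs a b hab hnab
  obtain ⟨A, p, s, B, rfl⟩ := interior hhd hlt ((hmem v).2 trivial) hav.symm hbv.symm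
  obtain ⟨hpv, hvs⟩ := adj_of hch
  have hps : p ≠ s := by
    rintro rfl
    simp [List.nodup_append] at hnd
  have hnps : ¬ G.Adj p s := tri p v s hpv hvs
  by_contra hcon
  push Not at hcon
  have hdeg : ∀ w, G.Adj v w → w = p ∨ w = s := by
    intro w hw
    by_contra hne
    push Not at hne
    exact hne.2 (hcon p s w hpv.symm hvs hw hps hne.1.symm).symm
  obtain ⟨l', hnd', hch', hhd', hlt', hmem'⟩ := pairs p s hps hnps
  obtain ⟨A', p', s', B', rfl⟩ := interior hhd' hlt' ((hmem' v).2 trivial) hpv.ne.symm hvs.ne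
  obtain ⟨h1, h2⟩ := adj_of hch'
  have hp' := hdeg p' h1.symm
  have hs' := hdeg s' h2
  have hne : p' ≠ s' := by
    rintro rfl
    simp [List.nodup_append] at hnd'
  have hA : A' = [] := by
    rcases A' with _ | ⟨x, A''⟩
    · rfl
    · exfalso
      simp only [List.cons_append, List.head?_cons, Option.some.injEq] at hhd'
      subst hhd'
      simp only [List.cons_append, List.nodup_cons, List.mem_append, List.mem_cons, not_or] at hnd'
      rcases hp' with e | e
      · exact hnd'.1.2.1 e.symm
      · rcases hs' with e' | e'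
        · exact hnd'.1.2.2.2.1 e'.symm
        · exact hne (e.trans e'.symm)
  subst hA
  have hpp : p' = p := by simpa using hhd'
  have hss : s' = s := by
    rcases hs' with e | e
    · exact absurd (hpp.trans e.symm) hne
    · exact e
  have hB : B' = [] := by
    rcases List.eq_nil_or_concat B' with rfl | ⟨B'', x, rfl⟩
    · rfl
    · exfalso
      have hx : x = s := by
        have h7 : ([] ++ p' :: v :: s' :: (B''.concat x) : List (Fin n)) =
            (p' :: v :: s' :: B'') ++ [x] := by simp
        rw [h7, List.getLast?_concat] at hlt'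
        exact Option.some.inj hlt'
      rw [hx, hss] at hnd'
      simp at hnd'
  subst hB
  have h5 : (Finset.univ : Finset (Fin n)).card ≤ ([p', v, s'] : List (Fin n)).toFinset.card :=
    Finset.card_le_card fun w _ => by
      rw [List.mem_toFinset]
      exact (hmem' w).2 trivial
  have h6 := List.toFinset_card_le ([p', v, s'] : List (Fin n))
  rw [Finset.card_univ, Fintype.card_fin] at h5
  simp only [List.length_cons, List.length_nil] at h6
  omega

end Pool.Agent.H91M5
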