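import Mathlib

/-! Graphs of girth five have no triangles and no 4-cycles, and at least five vertices. -/

set_option autoImplicit false

namespace Pool.Agent.H91M5

/-- PACKAGE P6. -/
theorem girth_five {n : ℕ} {G : SimpleGraph (Fin n)} (h : G.girth = 5) :
    5 ≤ n ∧ (∀ u v w, G.Adj u v → G.Adj v w → ¬ G.Adj u w) ∧
    (∀ a b c d, a ≠ c → b ≠ d → G.Adj a b → G.Adj b c → G.Adj c d → ¬ G.Adj d a) := by
  refine ⟨?_, ?_, ?_⟩
  · have hna : ¬ G.IsAcyclic := by
      intro hac
      have h1 := SimpleGraph.egirth_eq_top.2 hac
      rw [SimpleGraph.girth, h1] at h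
      simp at h
    obtain ⟨a, w, hw, hl⟩ := SimpleGraph.exists_egirth_eq_length.2 hna
    have hlen : w.length = 5 := by
      rw [SimpleGraph.girth, hl] at h
      simpa using h
    have hnd := hw.support_nodup
    have hcard := List.Nodup.length_le_card hnd
    rw [Fintype.card_fin, List.length_tail, SimpleGraph.Walk.length_support, hlen] at hcard
    omega
  · intro u v w huv hvw huw
    have huv' := huv.ne
    have hvw' := hvw.ne
    have huw' := huw.ne
    let W : G.Walk u u := .cons huv (.cons hvw (.cons huw.symm .nil))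
    have hc : W.IsCycle := by
      simp only [W, SimpleGraph.Walk.cons_isCycle_iff, SimpleGraph.Walk.cons_isPath_iff,
        SimpleGraph.Walk.isPath_iff_eq_nil, SimpleGraph.Walk.support_cons,
        SimpleGraph.Walk.support_nil, SimpleGraph.Walk.edges_cons, SimpleGraph.Walk.edges_nil,
        List.mem_cons, List.not_mem_nil, or_false, Sym2.eq_iff]
      refine ⟨⟨⟨trivial, ?_⟩, ?_⟩, ?_⟩
      · exact fun e => huw' e.symm
      · rintro (e | e)
        · exact hvw' e
        · exact huv' e.symm
      · rintro ((⟨e1, e2⟩ | ⟨e1, e2⟩) | (⟨e1, e2⟩ | ⟨e1, e2⟩))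
        · exact huv' e1
        · exact huw' e1
        · exact huw' e1
        · exact hvw' e2
    have := SimpleGraph.girth_le_length hc
    rw [h] at this
    simp [W] at this
  · intro a b c d hac hbd hab hbc hcd hda
    have h1 := hab.ne
    have h2 := hbc.ne
    have h3 := hcd.ne
    have h4 := hda.ne
    let W : G.Walk a a := .cons hab (.cons hbc (.cons hcd (.cons hda .nil)))
    have hc : W.IsCycle := by
      simp only [W, SimpleGraph.Walk.cons_isCycle_iff, SimpleGraph.Walk.cons_isPath_iff,
        SimpleGraph.Walk.isPath_iff_eq_nil, SimpleGraph.Walk.support_cons,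
        SimpleGraph.Walk.support_nil, SimpleGraph.Walk.edges_cons, SimpleGraph.Walk.edges_nil,
        List.mem_cons, List.not_mem_nil, or_false, Sym2.eq_iff]
      grind
    have := SimpleGraph.girth_le_length hc
    rw [h] at this
    simp [W] at this

end Pool.Agent.H91M5
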