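import Mathlib

/-! A triangle-free graph on at least five vertices has two nonadjacent vertices. -/

set_option autoImplicit false

namespace Pool.Agent.H91M5

/-- PACKAGE P7. -/
theorem exists_nonadj {n : ℕ} (hn : 5 ≤ n) {G : SimpleGraph (Fin n)}
    (tri : ∀ u v w, G.Adj u v → G.Adj v w → ¬ G.Adj u w) : ∃ u v, u ≠ v ∧ ¬ G.Adj u v := by
  by_contra h
  push Not at h
  have h01 : (⟨0, by omega⟩ : Fin n) ≠ ⟨1, by omega⟩ := by simp
  have h12 : (⟨1, by omega⟩ : Fin n) ≠ ⟨2, by omega⟩ := by simp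
  have h02 : (⟨0, by omega⟩ : Fin n) ≠ ⟨2, by omega⟩ := by simp
  exact tri _ _ _ (h _ _ h01) (h _ _ h12) (h _ _ h02)

end Pool.Agent.H91M5
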